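import Mathlib
import Pool.Agent.U853.Zom.Mass

/-!
# Zombies and survivors on the toroidal grid: `z(T_n) = O(n^{3/2})`
-/

namespace Pool.Agent.Results.MP_34e428_co.UpperBound

open scoped NNReal ENNReal BigOperators
open Finset

section Game

open Classical

/-- the average of `F` over the finite set `S` -/
noncomputable def avg {α : Type*} (S : Finset α) (F : α → ℝ) : ℝ := (∑ x ∈ S, F x) / (S.card : ℝ)

variable {V : Type*} [Fintype V]

/-- the vertices to which a zombie at `z` may move if the survivor is at `s`: the neighbours of `z`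
which lie on a shortest path from `z` to `s` -/
noncomputable def closer (Gr : SimpleGraph V) (z s : V) : Finset V :=
  Finset.univ.filter (fun u => Gr.Adj z u ∧ Gr.dist u s + 1 = Gr.dist z s)

/-- A (history dependent) strategy of the survivor against `k` zombies. `pos z h` is the vertex
chosen by the survivor when he sees the zombies at `z`, where `h` is the list of the earlier
configurations of the zombies, latest first; it is equal or adjacent to the preceding vertex. -/
structure Strategy (Gr : SimpleGraph V) (k : ℕ) where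
  pos : (Fin k → V) → List (Fin k → V) → V
  legal : ∀ (z' z : Fin k → V) (h : List (Fin k → V)),
    pos z' (z :: h) = pos z h ∨ Gr.Adj (pos z h) (pos z' (z :: h))

/-- the conditional probability that the survivor who plays `σ` is not eaten during the next `m`
rounds, given that the zombies are at `z` now and were at the configurations `h` before, the
survivor has just moved, and the zombies are to move -/
noncomputable def surv {Gr : SimpleGraph V} {k : ℕ} (σ : Strategy Gr k) :
    ℕ → (Fin k → V) → List (Fin k → V) → ℝ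
  | 0, z, h => if ∃ i, z i = σ.pos z h then 0 else 1
  | m + 1, z, h => if ∃ i, z i = σ.pos z h then 0 else
      avg (Fintype.piFinset fun i => closer Gr (z i) (σ.pos z h)) fun z' =>
        if ∃ i, z' i = σ.pos z h then 0 else surv σ m z' (z :: h)

/-- `s_k(G)`: the supremum over the strategies of the survivor of the probability that he is never
eaten by `k` zombies which start at independent uniformly random vertices -/
noncomputable def sProb (Gr : SimpleGraph V) (k : ℕ) : ℝ :=
  ⨆ σ : Strategy Gr k, ⨅ m : ℕ, avg (Finset.univ : Finset (Fin k → V)) fun z => surv σ m z []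

/-- the zombie number `z(G)`, the least `k` with `s_k(G) ≤ 1/2` -/
noncomputable def zombieNumber (Gr : SimpleGraph V) : ℕ := sInf {k : ℕ | sProb Gr k ≤ 1 / 2}

end Game

/-! ### Averages -/

section Avg

variable {α : Type*}

lemma avg_nonneg (S : Finset α) (F : α → ℝ) (hF : ∀ x ∈ S, 0 ≤ F x) : 0 ≤ avg S F := by
  unfold avg
  exact div_nonneg (Finset.sum_nonneg hF) (by positivity)

lemma avg_mono (S : Finset α) (F F' : α → ℝ) (hF : ∀ x ∈ S, F x ≤ F' x) :
    avg S F ≤ avg S F' := by
  unfold avg
  exact div_le_div_of_nonneg_right (Finset.sum_le_sum hF) (by positivity)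

lemma avg_le_one (S : Finset α) (F : α → ℝ) (hF : ∀ x ∈ S, F x ≤ 1) : avg S F ≤ 1 := by
  unfold avg
  rcases Nat.eq_zero_or_pos S.card with h | h
  · rw [h]; simp
  · have h' : (0:ℝ) < S.card := by exact_mod_cast h
    rw [div_le_one h']
    calc ∑ x ∈ S, F x ≤ ∑ _x ∈ S, (1:ℝ) := Finset.sum_le_sum hF
      _ = S.card := by simp

lemma avg_sum {β : Type*} (S : Finset α) (T : Finset β) (F : α → β → ℝ) :
    avg S (fun x => ∑ y ∈ T, F x y) = ∑ y ∈ T, avg S (fun x => F x y) := by
  unfold avg
  rw [Finset.sum_comm, Finset.sum_div]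

lemma avg_pi {k : ℕ} [DecidableEq α] (C : Fin k → Finset α) (f : Fin k → α → ℝ) :
    avg (Fintype.piFinset C) (fun z => ∏ i, f i (z i)) = ∏ i, avg (C i) (f i) := by
  unfold avg
  rw [← Finset.prod_univ_sum, Fintype.card_piFinset, Finset.prod_div_distrib]
  push_cast
  rfl

lemma avg_pair [DecidableEq α] (a b : α) (F : α → ℝ) :
    avg ({a, b} : Finset α) F = (F a + F b) / 2 := by
  unfold avg
  by_cases h : a = b
  · subst h; simp
  · rw [Finset.sum_pair h, Finset.card_pair h]; norm_num

end Avg

/-! ### Sums over the words in the five moves -/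

/-- the five moves -/
def E : Finset (ℤ × ℤ) := {(0, 0), (1, 0), (-1, 0), (0, 1), (0, -1)}

lemma E_card : E.card = 5 := by decide

lemma E_nm : ∀ e ∈ E, Pool.Agent.U853.Zom.nm e ≤ 1 := by
  unfold E Pool.Agent.U853.Zom.nm
  decide

noncomputable def wsum : ℕ → (List (ℤ × ℤ) → ℝ) → ℝ
  | 0, F => F []
  | m + 1, F => ∑ e ∈ E, wsum m (fun w => F (e :: w))

lemma wsum_nonneg (m : ℕ) : ∀ F : List (ℤ × ℤ) → ℝ, (∀ w, 0 ≤ F w) → 0 ≤ wsum m F := by
  induction m with
  | zero => intro F hF; exact hF []
  | succ m ih => intro F hF; exact Finset.sum_nonneg (fun e _ => ih _ (fun w => hF _))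

lemma wsum_mono (m : ℕ) : ∀ F F' : List (ℤ × ℤ) → ℝ, (∀ w, F w ≤ F' w) →
    wsum m F ≤ wsum m F' := by
  induction m with
  | zero => intro F F' hF; exact hF []
  | succ m ih => intro F F' hF; exact Finset.sum_le_sum (fun e _ => ih _ _ (fun w => hF _))

lemma wsum_le (m : ℕ) : ∀ (F : List (ℤ × ℤ) → ℝ) (c : ℝ),
    (∀ w, w.length = m → (∀ e ∈ w, e ∈ E) → F w ≤ c) → wsum m F ≤ 5 ^ m * c := by
  induction m with
  | zero =>
    intro F c hF
    simp only [wsum, pow_zero, one_mul]
    exact hF [] rfl (by simp)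
  | succ m ih =>
    intro F c hF
    simp only [wsum]
    calc ∑ e ∈ E, wsum m (fun w => F (e :: w)) ≤ ∑ _e ∈ E, 5 ^ m * c := by
          apply Finset.sum_le_sum
          intro e he
          apply ih
          intro w hw hwE
          apply hF
          · simp [hw]
          · intro e' he'
            rcases List.mem_cons.mp he' with rfl | h
            · exact he
            · exact hwE e' h
      _ = 5 ^ (m + 1) * c := by
          rw [Finset.sum_const, E_card]; simp; ring

lemma avg_wsum {α : Type*} (S : Finset α) (m : ℕ) : ∀ F : α → List (ℤ × ℤ) → ℝ,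
    avg S (fun x => wsum m (F x)) = wsum m (fun w => avg S (fun x => F x w)) := by
  induction m with
  | zero => intro F; rfl
  | succ m ih =>
    intro F
    simp only [wsum]
    rw [avg_sum]
    apply Finset.sum_congr rfl
    intro e _
    exact ih (fun x w => F x (e :: w))

/-! ### The torus -/

/-- the toroidal grid `C_n □ C_n` on the residues modulo `n` -/
def torusZ (n : ℕ) : SimpleGraph (ZMod n × ZMod n) :=
  (SimpleGraph.circulantGraph ({1} : Set (ZMod n))) □
    (SimpleGraph.circulantGraph ({1} : Set (ZMod n)))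

/-- reduction modulo `n` -/
def io (n : ℕ) (v : ℤ × ℤ) : ZMod n × ZMod n := ((v.1 : ZMod n), (v.2 : ZMod n))

lemma io_sub (n : ℕ) (u e : ℤ × ℤ) : io n (u - e) = io n u - io n e := by
  simp [io]

lemma io_zero (n : ℕ) : io n 0 = 0 := by simp [io]

/-- a general criterion for the distance -/
lemma edist_eq {V : Type*} (Gr : SimpleGraph V) (v : V) (f : V → ℕ) (h0 : ∀ u, f u = 0 → u = v)
    (hv : f v = 0)
    (h1 : ∀ u u', Gr.Adj u u' → f u ≤ f u' + 1)
    (h2 : ∀ u, f u ≠ 0 → ∃ u', Gr.Adj u u' ∧ f u' + 1 = f u) (u : V) :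
    Gr.edist u v = f u := by
  apply le_antisymm
  · have : ∀ m : ℕ, ∀ u, f u = m → ∃ p : Gr.Walk u v, p.length = m := by
      intro m
      induction m with
      | zero =>
        intro u hu
        obtain rfl := h0 u hu
        exact ⟨SimpleGraph.Walk.nil, rfl⟩
      | succ m ih =>
        intro u hu
        obtain ⟨u', ha, hu'⟩ := h2 u (by omega)
        obtain ⟨p, hp⟩ := ih u' (by omega)
        exact ⟨SimpleGraph.Walk.cons ha p, by simp [hp]⟩
    obtain ⟨p, hp⟩ := this (f u) u rfl
    rw [← hp]
    exact SimpleGraph.edist_le p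
  · by_cases htop : Gr.edist u v = ⊤
    · rw [htop]; exact le_top
    · obtain ⟨p, hp⟩ := SimpleGraph.exists_walk_of_edist_ne_top htop
      rw [← hp]
      have : ∀ u u' (p : Gr.Walk u u'), f u ≤ f u' + p.length := by
        intro u u' p
        induction p with
        | nil => simp
        | cons ha p ih =>
          have := h1 _ _ ha
          simp only [SimpleGraph.Walk.length_cons]
          omega
      have h := this u v p
      rw [hv, zero_add] at h
      exact_mod_cast h

section Cycle

variable {n : ℕ} [NeZero n]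

/-- the norm of a residue -/
def nr (x : ZMod n) : ℕ := x.valMinAbs.natAbs

lemma nr_int (x : ℤ) (hx : 2 * |x| < n) : nr (x : ZMod n) = x.natAbs := by
  unfold nr
  have : (x : ZMod n).valMinAbs = x := by
    rw [ZMod.valMinAbs_spec]
    refine ⟨rfl, ?_⟩
    rw [Set.mem_Ioc]
    have h1 := neg_abs_le x
    have h2 := le_abs_self x
    constructor <;> linarith
  rw [this]

lemma nr_add (x y : ZMod n) : nr (x + y) ≤ nr x + nr y := by
  unfold nr
  refine le_trans (ZMod.natAbs_valMinAbs_add_le x y) ?_
  exact Int.natAbs_add_le _ _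

lemma nr_neg (x : ZMod n) : nr (-x) = nr x := by
  unfold nr
  exact ZMod.natAbs_valMinAbs_neg x

lemma nr_one (hn : 3 ≤ n) : nr (1 : ZMod n) = 1 := by
  have h := nr_int (n := n) 1 (by norm_num; omega)
  simpa using h

lemma cyc_edist (hn : 3 ≤ n) (u v : ZMod n) :
    (SimpleGraph.circulantGraph ({1} : Set (ZMod n))).edist u v = nr (u - v) := by
  apply edist_eq _ v (fun u => nr (u - v))
  · intro u hu
    unfold nr at hu
    rw [Int.natAbs_eq_zero, ZMod.valMinAbs_eq_zero] at hu
    exact sub_eq_zero.mp hu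
  · simp [nr]
  · intro u u' h
    rw [SimpleGraph.circulantGraph_adj] at h
    obtain ⟨_, h | h⟩ := h
    · have h : u - u' = 1 := h
      have : u - v = (u' - v) + 1 := by rw [← h]; ring
      simp only [this]
      refine le_trans (nr_add _ _) ?_
      rw [nr_one hn]
    · have h : u' - u = 1 := h
      have : u - v = (u' - v) + (-1) := by rw [← h]; ring
      simp only [this]
      refine le_trans (nr_add _ _) ?_
      rw [nr_neg, nr_one hn]
  · intro u hu
    set x := (u - v).valMinAbs with hx
    have hxne : x ≠ 0 := by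
      intro h
      apply hu
      unfold nr
      rw [← hx, h]; rfl
    have hcoe : ((x : ℤ) : ZMod n) = u - v := ZMod.coe_valMinAbs _
    have hmem := (u - v).valMinAbs_mem_Ioc
    rw [← hx, Set.mem_Ioc] at hmem
    have h10 : (1 : ZMod n) ≠ 0 := by
      intro h
      have := nr_one hn
      rw [h] at this
      simp [nr] at this
    have hnr : nr (u - v) = x.natAbs := rfl
    rcases lt_or_gt_of_ne hxne with h | h
    · refine ⟨u + 1, ?_, ?_⟩
      · rw [SimpleGraph.circulantGraph_adj]
        refine ⟨?_, Or.inr ?_⟩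
        · intro h'
          apply h10
          have : u + 1 - u = u - u := by rw [← h']
          simpa using this
        · show u + 1 - u = 1
          ring
      · have e1 : u + 1 - v = ((x + 1 : ℤ) : ZMod n) := by
          push_cast; rw [hcoe]; ring
        rw [e1, hnr]
        have e2 : ((x + 1 : ℤ) : ZMod n).valMinAbs = x + 1 := by
          rw [ZMod.valMinAbs_spec]
          refine ⟨rfl, ?_⟩
          rw [Set.mem_Ioc]
          constructor
          · linarith [hmem.1]
          · have : (0:ℤ) ≤ n := by positivity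
            linarith
        unfold nr
        rw [e2]
        omega
    · refine ⟨u - 1, ?_, ?_⟩
      · rw [SimpleGraph.circulantGraph_adj]
        refine ⟨?_, Or.inl ?_⟩
        · intro h'
          apply h10
          have : u - (u - 1) = u - u := by rw [← h']
          simpa using this
        · show u - (u - 1) = 1
          ring
      · have e1 : u - 1 - v = ((x - 1 : ℤ) : ZMod n) := by
          push_cast; rw [hcoe]; ring
        rw [e1, hnr]
        have e2 : ((x - 1 : ℤ) : ZMod n).valMinAbs = x - 1 := by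
          rw [ZMod.valMinAbs_spec]
          refine ⟨rfl, ?_⟩
          rw [Set.mem_Ioc]
          constructor
          · have : (3:ℤ) ≤ n := by exact_mod_cast hn
            linarith
          · linarith [hmem.2]
        unfold nr
        rw [e2]
        omega

lemma torus_dist (hn : 3 ≤ n) (u v : ZMod n × ZMod n) :
    (torusZ n).dist u v = nr (u.1 - v.1) + nr (u.2 - v.2) := by
  unfold SimpleGraph.dist torusZ
  rw [SimpleGraph.edist_boxProd, cyc_edist hn, cyc_edist hn]
  rfl

end Cycle

/-! ### The moves of a zombie near the survivor -/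

section Local

open Pool.Agent.U853.Zom

variable {n : ℕ} [NeZero n]

lemma dist_io (hn : 3 ≤ n) (s : ZMod n × ZMod n) (v : ℤ × ℤ) (hv : 2 * nm v < n) :
    (torusZ n).dist (s + io n v) s = v.1.natAbs + v.2.natAbs := by
  have h1 : 2 * |v.1| < n := by
    have := abs_nonneg v.2
    unfold nm at hv
    linarith
  have h2 : 2 * |v.2| < n := by
    have := abs_nonneg v.1
    unfold nm at hv
    linarith
  rw [torus_dist hn]
  simp only [io, Prod.fst_add, Prod.snd_add, add_sub_cancel_left]
  rw [nr_int _ h1, nr_int _ h2]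

lemma torusZ_adj (u v : ZMod n × ZMod n) : (torusZ n).Adj u v ↔
    ((u.1 ≠ v.1 ∧ (u.1 - v.1 = 1 ∨ v.1 - u.1 = 1)) ∧ u.2 = v.2) ∨
    ((u.2 ≠ v.2 ∧ (u.2 - v.2 = 1 ∨ v.2 - u.2 = 1)) ∧ u.1 = v.1) := by
  unfold torusZ
  rw [SimpleGraph.boxProd_adj, SimpleGraph.circulantGraph_adj, SimpleGraph.circulantGraph_adj]
  rfl

/-- neighbours differ by one of the four unit vectors -/
lemma adj_iff (hn : 3 ≤ n) (u v : ZMod n × ZMod n) : (torusZ n).Adj u v ↔
    v = u + io n (1, 0) ∨ v = u + io n (-1, 0) ∨ v = u + io n (0, 1) ∨ v = u + io n (0, -1) := by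
  have h10 : (1 : ZMod n) ≠ 0 := by
    intro h
    have := nr_one hn
    rw [h] at this
    simp [nr] at this
  rw [torusZ_adj]
  obtain ⟨a, b⟩ := u
  obtain ⟨c, d⟩ := v
  simp only [io, Prod.mk_add_mk, Prod.mk.injEq, Int.cast_one, Int.cast_zero, Int.cast_neg,
    add_zero]
  constructor
  · rintro (⟨⟨_, h | h⟩, h2⟩ | ⟨⟨_, h | h⟩, h2⟩)
    · right; left; exact ⟨by rw [← h]; ring, h2.symm⟩
    · left; exact ⟨by rw [← h]; ring, h2.symm⟩
    · right; right; right; exact ⟨h2.symm, by rw [← h]; ring⟩
    · right; right; left; exact ⟨h2.symm, by rw [← h]; ring⟩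
  · rintro (⟨h, h2⟩ | ⟨h, h2⟩ | ⟨h, h2⟩ | ⟨h, h2⟩)
    · subst h; subst h2
      left
      exact ⟨⟨by intro h; apply h10; simpa using h.symm, Or.inr (by ring)⟩, rfl⟩
    · subst h; subst h2
      left
      exact ⟨⟨by intro h; apply h10; simpa using h, Or.inl (by ring)⟩, rfl⟩
    · subst h; subst h2
      right
      exact ⟨⟨by intro h; apply h10; simpa using h.symm, Or.inr (by ring)⟩, rfl⟩
    · subst h; subst h2
      right
      exact ⟨⟨by intro h; apply h10; simpa using h, Or.inl (by ring)⟩, rfl⟩

lemma io_add (u e : ℤ × ℤ) : io n (u + e) = io n u + io n e := by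
  simp [io]

/-- the moves of a zombie near the survivor -/
lemma closer_eq (hn : 3 ≤ n) (s : ZMod n × ZMod n) (v : ℤ × ℤ) (hv : 2 * nm v + 2 < n)
    (hv0 : v ≠ 0) :
    closer (torusZ n) (s + io n v) s = {s + io n (FH v), s + io n (FV v)} := by
  have hd : (torusZ n).dist (s + io n v) s = v.1.natAbs + v.2.natAbs :=
    dist_io hn s v (by linarith)
  have key : ∀ d : ℤ × ℤ, nm d ≤ 1 → (torusZ n).dist (s + io n (v + d)) s
      = (v + d).1.natAbs + (v + d).2.natAbs := by
    intro d hd1
    apply dist_io hn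
    have h1 : nm (v + d) ≤ nm v + nm d := by
      obtain ⟨a, b⟩ := v
      obtain ⟨c, e⟩ := d
      simp only [nm, Prod.mk_add_mk]
      have h1 := abs_add_le a c
      have h2 := abs_add_le b e
      linarith
    linarith
  have hnm : ∀ u : ℤ × ℤ, ((u.1.natAbs + u.2.natAbs : ℕ) : ℤ) = nm u := by
    intro u
    unfold nm
    push_cast
    rfl
  ext u
  simp only [closer, Finset.mem_filter, Finset.mem_univ, true_and, Finset.mem_insert,
    Finset.mem_singleton]
  rw [adj_iff hn, hd]
  have hassoc : ∀ d : ℤ × ℤ, s + io n v + io n d = s + io n (v + d) := by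
    intro d; rw [io_add, add_assoc]
  simp only [hassoc]
  obtain ⟨a, b⟩ := v
  constructor
  · rintro ⟨h, h2⟩
    have main : ∀ d : ℤ × ℤ, nm d ≤ 1 → u = s + io n ((a, b) + d) →
        (d = (1, 0) ∨ d = (-1, 0) ∨ d = (0, 1) ∨ d = (0, -1)) →
        u = s + io n (FH (a, b)) ∨ u = s + io n (FV (a, b)) := by
      intro d hd1 hu hcase
      rw [hu, key d hd1] at h2
      rcases hcase with rfl | rfl | rfl | rfl
      · have ha : a < 0 := by simp only [Prod.mk_add_mk] at h2; omega
        have : FH (a, b) = (a, b) + (1, 0) := by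
          simp only [FH, Prod.mk_add_mk]
          rw [if_neg (by omega), Int.sign_eq_neg_one_of_neg ha]
          ext <;> simp
        left; rw [hu, this]
      · have ha : 0 < a := by simp only [Prod.mk_add_mk] at h2; omega
        have : FH (a, b) = (a, b) + (-1, 0) := by
          simp only [FH, Prod.mk_add_mk]
          rw [if_neg (by omega), Int.sign_eq_one_of_pos ha]
          ext <;> simp <;> ring
        left; rw [hu, this]
      · have hb : b < 0 := by simp only [Prod.mk_add_mk] at h2; omega
        have : FV (a, b) = (a, b) + (0, 1) := by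
          simp only [FV, Prod.mk_add_mk]
          rw [if_neg (by omega), Int.sign_eq_neg_one_of_neg hb]
          ext <;> simp
        right; rw [hu, this]
      · have hb : 0 < b := by simp only [Prod.mk_add_mk] at h2; omega
        have : FV (a, b) = (a, b) + (0, -1) := by
          simp only [FV, Prod.mk_add_mk]
          rw [if_neg (by omega), Int.sign_eq_one_of_pos hb]
          ext <;> simp <;> ring
        right; rw [hu, this]
    rcases h with h | h | h | h
    · exact main (1, 0) (by simp [nm]) h (by simp)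
    · exact main (-1, 0) (by simp [nm]) h (by simp)
    · exact main (0, 1) (by simp [nm]) h (by simp)
    · exact main (0, -1) (by simp [nm]) h (by simp)
  · intro h
    have main : ∀ d : ℤ × ℤ, nm d ≤ 1 → u = s + io n ((a, b) + d) → nm ((a, b) + d) + 1 = nm (a, b)
        → (d = (1, 0) ∨ d = (-1, 0) ∨ d = (0, 1) ∨ d = (0, -1)) →
        (u = s + io n ((a, b) + (1, 0)) ∨ u = s + io n ((a, b) + (-1, 0)) ∨
          u = s + io n ((a, b) + (0, 1)) ∨ u = s + io n ((a, b) + (0, -1))) ∧
          (torusZ n).dist u s + 1 = (a, b).1.natAbs + (a, b).2.natAbs := by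
      intro d hd1 hu hnmd hcase
      refine ⟨?_, ?_⟩
      · rcases hcase with rfl | rfl | rfl | rfl
        · exact Or.inl hu
        · exact Or.inr (Or.inl hu)
        · exact Or.inr (Or.inr (Or.inl hu))
        · exact Or.inr (Or.inr (Or.inr hu))
      · rw [hu, key d hd1]
        have h1 := hnm ((a, b) + d)
        have h2 := hnm (a, b)
        have : ((((a, b) + d).1.natAbs + ((a, b) + d).2.natAbs : ℕ) : ℤ) + 1
            = (((a, b).1.natAbs + (a, b).2.natAbs : ℕ) : ℤ) := by
          rw [h1, h2]; exact hnmd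
        exact_mod_cast this
    have hstep : ∀ F : ℤ × ℤ → ℤ × ℤ, (F = FH ∨ F = FV) → ∃ d : ℤ × ℤ, F (a, b) = (a, b) + d ∧
        (d = (1, 0) ∨ d = (-1, 0) ∨ d = (0, 1) ∨ d = (0, -1)) := by
      have hsg : ∀ x : ℤ, x ≠ 0 → Int.sign x = 1 ∨ Int.sign x = -1 := by
        intro x hx
        rcases lt_or_gt_of_ne hx with h | h
        · right; exact Int.sign_eq_neg_one_of_neg h
        · left; exact Int.sign_eq_one_of_pos h
      intro F hF
      rcases hF with rfl | rfl
      · by_cases ha : a = 0
        · have hb : b ≠ 0 := by rintro rfl; exact hv0 (by simp [ha])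
          rcases hsg b hb with h | h
          · refine ⟨(0, -1), ?_, by simp⟩
            simp [FH, ha, h]; ring
          · refine ⟨(0, 1), ?_, by simp⟩
            simp [FH, ha, h]
        · rcases hsg a ha with h | h
          · refine ⟨(-1, 0), ?_, by simp⟩
            simp [FH, ha, h]; ring
          · refine ⟨(1, 0), ?_, by simp⟩
            simp [FH, ha, h]
      · by_cases hb : b = 0
        · have ha : a ≠ 0 := by rintro rfl; exact hv0 (by simp [hb])
          rcases hsg a ha with h | h
          · refine ⟨(-1, 0), ?_, by simp⟩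
            simp [FV, hb, h]; ring
          · refine ⟨(1, 0), ?_, by simp⟩
            simp [FV, hb, h]
        · rcases hsg b hb with h | h
          · refine ⟨(0, -1), ?_, by simp⟩
            simp [FV, hb, h]; ring
          · refine ⟨(0, 1), ?_, by simp⟩
            simp [FV, hb, h]
    have hd1 : ∀ d : ℤ × ℤ, (d = (1, 0) ∨ d = (-1, 0) ∨ d = (0, 1) ∨ d = (0, -1)) → nm d ≤ 1 := by
      rintro d (rfl | rfl | rfl | rfl) <;> simp [nm]
    rcases h with h | h
    · obtain ⟨d, hd2, hcase⟩ := hstep FH (Or.inl rfl)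
      rw [hd2] at h
      have := nm_FH (a, b) hv0
      rw [hd2] at this
      exact main d (hd1 d hcase) h (by linarith) hcase
    · obtain ⟨d, hd2, hcase⟩ := hstep FV (Or.inr rfl)
      rw [hd2] at h
      have := nm_FV (a, b) hv0
      rw [hd2] at this
      exact main d (hd1 d hcase) h (by linarith) hcase

end Local

/-! ### One zombie and a fixed trajectory -/

section Single

open Pool.Agent.U853.Zom

variable {n : ℕ} [NeZero n]

/-- the probability that a zombie at `z` does not capture the survivor who starts at `s` and makes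
the moves of the list -/
noncomputable def q (n : ℕ) [NeZero n] : List (ℤ × ℤ) → ZMod n × ZMod n → ZMod n × ZMod n → ℝ
  | [], z, s => if z = s then 0 else 1
  | e :: w, z, s => if z = s then 0 else
      avg (closer (torusZ n) z s) (fun z' => if z' = s then 0 else q n w z' (s + io n e))

lemma q_nonneg (w : List (ℤ × ℤ)) : ∀ z s, 0 ≤ q n w z s := by
  induction w with
  | nil => intro z s; simp only [q]; split_ifs <;> norm_num
  | cons e w ih =>
    intro z s
    simp only [q]
    split_ifs
    · exact le_rfl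
    · apply avg_nonneg
      intro z' _
      split_ifs
      · exact le_rfl
      · exact ih _ _

lemma q_le_one (w : List (ℤ × ℤ)) : ∀ z s, q n w z s ≤ 1 := by
  induction w with
  | nil => intro z s; simp only [q]; split_ifs <;> norm_num
  | cons e w ih =>
    intro z s
    simp only [q]
    split_ifs
    · norm_num
    · apply avg_le_one
      intro z' _
      split_ifs
      · norm_num
      · exact ih _ _

lemma q_le (hn : 3 ≤ n) (w : List (ℤ × ℤ)) (hw : ∀ e ∈ w, e ∈ E)
    (hlen : 4 * (w.length : ℤ) + 2 < n) :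
    ∀ (v : ℤ × ℤ) (s : ZMod n × ZMod n), q n w (s + io n v) s ≤ 1 - (g w v : ℝ) := by
  induction w with
  | nil =>
    intro v s
    simp only [q, g_nil]
    by_cases hv : v = 0
    · subst hv; simp [io_zero]
    · rw [if_neg hv]
      split_ifs <;> simp
  | cons e w ih =>
    intro v s
    have hw' : ∀ e' ∈ w, e' ∈ E := fun e' he' => hw e' (List.mem_cons_of_mem _ he')
    have hlc : ((e :: w).length : ℤ) = (w.length : ℤ) + 1 := by simp
    rw [hlc] at hlen
    have ih' := ih hw' (by linarith)
    by_cases hv : v = 0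
    · subst hv
      rw [io_zero, add_zero, g_zero]
      simp [q]
    by_cases hbig : 2 * ((e :: w).length : ℤ) < nm v
    · rw [g_support (e :: w) (fun e' he' => E_nm e' (hw e' he')) v hbig]
      have := q_le_one (n := n) (e :: w) (s + io n v) s
      simpa using this
    push Not at hbig
    rw [hlc] at hbig
    have hF : ∀ u : ℤ × ℤ, (if s + io n u = s then (0:ℝ) else q n w (s + io n u) (s + io n e))
        ≤ 1 - (phi w e u : ℝ) := by
      intro u
      unfold phi
      by_cases hu : u = 0
      · subst hu; simp [io_zero]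
      · rw [if_neg hu]
        have h1 := ih' (u - e) (s + io n e)
        have h2 : s + io n e + io n (u - e) = s + io n u := by
          rw [io_sub]; abel
        rw [h2] at h1
        split_ifs
        · have := g_le_one w (u - e)
          have : (g w (u - e) : ℝ) ≤ 1 := by exact_mod_cast this
          linarith
        · exact h1
    have hg : (g (e :: w) v : ℝ) = ((phi w e (FH v) : ℝ) + (phi w e (FV v) : ℝ)) / 2 := by
      rw [g_cons, if_neg hv]
      push_cast
      rfl
    simp only [q]
    split_ifs with hz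
    · have := g_le_one (e :: w) v
      have : (g (e :: w) v : ℝ) ≤ 1 := by exact_mod_cast this
      linarith
    · rw [closer_eq hn s v (by linarith) hv, avg_pair, hg]
      have h1 := hF (FH v)
      have h2 := hF (FV v)
      linarith

/-- the mass which is not captured by a fixed trajectory -/
lemma sum_q_le (hn : 3 ≤ n) (w : List (ℤ × ℤ)) (hw : ∀ e ∈ w, e ∈ E)
    (hlen : 4 * (w.length : ℤ) + 2 < n) (s : ZMod n × ZMod n) :
    ∑ z, q n w z s ≤ (n:ℝ) ^ 2 - (1 + 3 / 2 * w.length
      + 3 / 16 * (w.length * Real.sqrt w.length)) := by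
  set m : ℤ := 2 * (w.length : ℤ) with hm
  have hm0 : 0 ≤ m := by positivity
  set box : Finset (ℤ × ℤ) := (Finset.Icc (-m) m) ×ˢ (Finset.Icc (-m) m) with hbox
  have hinj : Set.InjOn (fun v : ℤ × ℤ => s + io n v) box := by
    intro v hv v' hv' h
    have hv1 := Finset.mem_product.mp (Finset.mem_coe.mp hv)
    have hv2 := Finset.mem_product.mp (Finset.mem_coe.mp hv')
    rw [Finset.mem_Icc, Finset.mem_Icc] at hv1 hv2
    have h' : io n v = io n v' := add_left_cancel h
    have h1 : ((v.1 : ℤ) : ZMod n) = v'.1 := congrArg Prod.fst h'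
    have h2 : ((v.2 : ℤ) : ZMod n) = v'.2 := congrArg Prod.snd h'
    have aux : ∀ a b : ℤ, -m ≤ a → a ≤ m → -m ≤ b → b ≤ m → ((a : ℤ) : ZMod n) = b → a = b := by
      intro a b ha1 ha2 hb1 hb2 hab
      rw [ZMod.intCast_eq_intCast_iff_dvd_sub] at hab
      by_contra hne
      have hne' : b - a ≠ 0 := fun h => hne (by linarith)
      have := Int.le_of_dvd (abs_pos.mpr hne') ((dvd_abs _ _).mpr hab)
      have h3 : |b - a| ≤ 2 * m := by rw [abs_le]; constructor <;> linarith
      linarith
    ext
    · exact aux _ _ hv1.1.1 hv1.1.2 hv2.1.1 hv2.1.2 h1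
    · exact aux _ _ hv1.2.1 hv1.2.2 hv2.2.1 hv2.2.2 h2
  have hG : G w = ((∑ v ∈ box, g w v : ℝ≥0) : ℝ≥0∞) := by
    unfold G
    have hsup : ∀ a y : ℤ, (a ∉ Finset.Icc (-m) m ∨ y ∉ Finset.Icc (-m) m) → g w (a, y) = 0 := by
      intro a y h
      apply g_support w (fun e' he' => E_nm e' (hw e' he'))
      unfold nm
      have h1 := abs_nonneg a
      have h2 := abs_nonneg y
      rcases h with h | h
      · rw [Finset.mem_Icc, ← abs_le] at h
        push Not at h
        simp only
        linarith
      · rw [Finset.mem_Icc, ← abs_le] at h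
        push Not at h
        simp only
        linarith
    rw [tsum_eq_sum (s := Finset.Icc (-m) m)]
    · have : ∀ y ∈ Finset.Icc (-m) m, ∑' a : ℤ, (g w (a, y) : ℝ≥0∞)
          = ∑ a ∈ Finset.Icc (-m) m, (g w (a, y) : ℝ≥0∞) := by
        intro y _
        apply tsum_eq_sum
        intro a ha
        rw [hsup a y (Or.inl ha)]; rfl
      rw [Finset.sum_congr rfl this, hbox, Finset.sum_product_right]
      push_cast
      rfl
    · intro y hy
      have : ∀ a : ℤ, (g w (a, y) : ℝ≥0∞) = 0 := by
        intro a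
        rw [hsup a y (Or.inr hy)]; rfl
      simp only [this, tsum_zero]
  have hlow := G_lower w (fun e' he' => E_nm e' (hw e' he'))
  rw [hG] at hlow
  have hlow' : 1 + 3 / 2 * w.length + 3 / 16 * (w.length * Real.sqrt w.length)
      ≤ ((∑ v ∈ box, g w v : ℝ≥0) : ℝ) := by
    have h := ENNReal.toReal_mono (ENNReal.coe_ne_top) hlow
    rw [ENNReal.toReal_ofReal (by positivity), ENNReal.coe_toReal] at h
    exact h
  have hsum : ((∑ v ∈ box, g w v : ℝ≥0) : ℝ) ≤ ∑ z : ZMod n × ZMod n, (1 - q n w z s) := by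
    calc ((∑ v ∈ box, g w v : ℝ≥0) : ℝ) = ∑ v ∈ box, (g w v : ℝ) := by push_cast; rfl
      _ ≤ ∑ v ∈ box, (1 - q n w (s + io n v) s) := by
          apply Finset.sum_le_sum
          intro v _
          have := q_le hn w hw hlen v s
          linarith
      _ = ∑ z ∈ box.image (fun v => s + io n v), (1 - q n w z s) := by
          rw [Finset.sum_image hinj]
      _ ≤ ∑ z : ZMod n × ZMod n, (1 - q n w z s) := by
          apply Finset.sum_le_sum_of_subset_of_nonneg (Finset.subset_univ _)
          intro z _ _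
          have := q_le_one (n := n) w z s
          linarith
  rw [Finset.sum_sub_distrib] at hsum
  have hcard : ∑ _z : ZMod n × ZMod n, (1:ℝ) = (n:ℝ) ^ 2 := by
    rw [Finset.sum_const, Finset.card_univ, Fintype.card_prod, ZMod.card]
    simp; ring
  rw [hcard] at hsum
  linarith

end Single

/-! ### The union bound over the trajectories -/

section Union

variable {n : ℕ} [NeZero n]

lemma legal_move (hn : 3 ≤ n) {k : ℕ} (σ : Strategy (torusZ n) k)
    (z' z : Fin k → ZMod n × ZMod n) (h : List (Fin k → ZMod n × ZMod n)) :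
    ∃ e ∈ E, σ.pos z' (z :: h) = σ.pos z h + io n e := by
  rcases σ.legal z' z h with h1 | h1
  · exact ⟨(0, 0), by decide, by rw [h1]; simp [io]⟩
  · rw [adj_iff hn] at h1
    rcases h1 with h1 | h1 | h1 | h1
    · exact ⟨(1, 0), by decide, h1⟩
    · exact ⟨(-1, 0), by decide, h1⟩
    · exact ⟨(0, 1), by decide, h1⟩
    · exact ⟨(0, -1), by decide, h1⟩

lemma surv_nonneg {V : Type*} [Fintype V] {Gr : SimpleGraph V} {k : ℕ} (σ : Strategy Gr k)
    (m : ℕ) : ∀ z h, 0 ≤ surv σ m z h := by
  induction m with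
  | zero => intro z h; simp only [surv]; split_ifs <;> norm_num
  | succ m ih =>
    intro z h
    simp only [surv]
    split_ifs
    · exact le_rfl
    · apply avg_nonneg
      intro z' _
      split_ifs
      · exact le_rfl
      · exact ih _ _

lemma surv_le (hn : 3 ≤ n) {k : ℕ} (σ : Strategy (torusZ n) k) (m : ℕ) :
    ∀ (z : Fin k → ZMod n × ZMod n) (h : List (Fin k → ZMod n × ZMod n)),
    surv σ m z h ≤ wsum m (fun w => ∏ i, q n w (z i) (σ.pos z h)) := by
  induction m with
  | zero =>
    intro z h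
    simp only [surv, wsum, q]
    split_ifs with hex
    · exact Finset.prod_nonneg (fun i _ => by split_ifs <;> norm_num)
    · push Not at hex
      rw [Finset.prod_eq_one]
      intro i _
      rw [if_neg (hex i)]
  | succ m ih =>
    intro z h
    have hnn : ∀ (w : List (ℤ × ℤ)) (e : ℤ × ℤ) (z' : Fin k → ZMod n × ZMod n),
        0 ≤ ∏ i, (if z' i = σ.pos z h then (0:ℝ) else q n w (z' i) (σ.pos z h + io n e)) := by
      intro w e z'
      apply Finset.prod_nonneg
      intro i _
      split_ifs
      · exact le_rfl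
      · exact q_nonneg _ _ _
    simp only [surv]
    split_ifs with hex
    · exact wsum_nonneg _ _ (fun w => Finset.prod_nonneg (fun i _ => q_nonneg _ _ _))
    · push Not at hex
      refine le_trans (avg_mono _ _ (fun z' =>
            ∑ e ∈ E, wsum m (fun w => ∏ i, (if z' i = σ.pos z h then (0:ℝ)
              else q n w (z' i) (σ.pos z h + io n e)))) ?_) (le_of_eq ?_)
      · intro z' _
        split_ifs with hex'
        · exact Finset.sum_nonneg (fun e _ => wsum_nonneg _ _ (fun w => hnn w e z'))
        · push Not at hex'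
          obtain ⟨e, he, hpos⟩ := legal_move hn σ z' z h
          refine le_trans (ih z' (z :: h)) ?_
          rw [hpos]
          have hsingle := Finset.single_le_sum (f := fun e => wsum m (fun w =>
            ∏ i, (if z' i = σ.pos z h then (0:ℝ) else q n w (z' i) (σ.pos z h + io n e))))
            (fun e _ => wsum_nonneg m _ (fun w => hnn w e z')) he
          refine le_trans ?_ hsingle
          apply wsum_mono
          intro w
          apply le_of_eq
          apply Finset.prod_congr rfl
          intro i _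
          rw [if_neg (hex' i)]
      calc avg (Fintype.piFinset fun i => closer (torusZ n) (z i) (σ.pos z h)) (fun z' =>
            ∑ e ∈ E, wsum m (fun w => ∏ i, (if z' i = σ.pos z h then (0:ℝ)
              else q n w (z' i) (σ.pos z h + io n e))))
        _ = ∑ e ∈ E, wsum m (fun w => avg (Fintype.piFinset fun i =>
              closer (torusZ n) (z i) (σ.pos z h)) (fun z' => ∏ i, (if z' i = σ.pos z h then (0:ℝ)
              else q n w (z' i) (σ.pos z h + io n e)))) := by
            rw [avg_sum]
            apply Finset.sum_congr rfl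
            intro e _
            rw [avg_wsum]
        _ = wsum (m + 1) (fun w => ∏ i, q n w (z i) (σ.pos z h)) := by
            simp only [wsum]
            apply Finset.sum_congr rfl
            intro e _
            congr 1
            funext w
            rw [avg_pi (fun i => closer (torusZ n) (z i) (σ.pos z h))
              (fun _ z' => if z' = σ.pos z h then (0:ℝ) else q n w z' (σ.pos z h + io n e))]
            apply Finset.prod_congr rfl
            intro i _
            simp only [q]
            rw [if_neg (hex i)]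

lemma avg_surv_le (hn : 3 ≤ n) {k : ℕ} (σ : Strategy (torusZ n) k) (t : ℕ) :
    avg (Finset.univ : Finset (Fin k → ZMod n × ZMod n)) (fun z => surv σ t z [])
      ≤ ∑ s, wsum t (fun w => (avg Finset.univ (fun z => q n w z s)) ^ k) := by
  have hnn : ∀ (z : Fin k → ZMod n × ZMod n) (s : ZMod n × ZMod n) (w : List (ℤ × ℤ)),
      0 ≤ ∏ i, q n w (z i) s := fun z s w => Finset.prod_nonneg (fun i _ => q_nonneg _ _ _)
  calc avg (Finset.univ : Finset (Fin k → ZMod n × ZMod n)) (fun z => surv σ t z [])
      ≤ avg Finset.univ (fun z : Fin k → ZMod n × ZMod n =>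
          ∑ s, wsum t (fun w => ∏ i, q n w (z i) s)) := by
        apply avg_mono
        intro z _
        refine le_trans (surv_le hn σ t z []) ?_
        exact Finset.single_le_sum (f := fun s => wsum t (fun w => ∏ i, q n w (z i) s))
          (fun s _ => wsum_nonneg t _ (fun w => hnn z s w)) (Finset.mem_univ _)
    _ = ∑ s, wsum t (fun w => (avg Finset.univ (fun z => q n w z s)) ^ k) := by
        rw [avg_sum]
        apply Finset.sum_congr rfl
        intro s _
        rw [avg_wsum]
        congr 1
        funext w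
        have h := avg_pi (fun _ : Fin k => (Finset.univ : Finset (ZMod n × ZMod n)))
          (fun _ z => q n w z s)
        rw [Fintype.piFinset_univ] at h
        rw [h, Finset.prod_const, Finset.card_univ, Fintype.card_fin]

/-! ### The numerical estimate -/

lemma sq_le_four_pow (t : ℕ) : (4 * (t:ℝ) + 6) ^ 2 ≤ 36 * 4 ^ t := by
  induction t with
  | zero => norm_num
  | succ t ih =>
    have ht : (0:ℝ) ≤ t := by positivity
    push_cast
    rw [pow_succ (4:ℝ) t]
    nlinarith

lemma exp_bound (t : ℕ) : 72 * (20:ℝ) ^ t ≤ Real.exp (5 + 3 * t) := by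
  have h1 := Real.exp_one_gt_d9
  have h5 : (72:ℝ) ≤ Real.exp 5 := by
    have : Real.exp 5 = (Real.exp 1) ^ 5 := by
      rw [← Real.exp_nat_mul]; norm_num
    rw [this]
    have : (2.7:ℝ) ^ 5 ≤ (Real.exp 1) ^ 5 := by
      apply pow_le_pow_left₀ (by norm_num)
      linarith
    norm_num at this ⊢
    linarith
  have h3 : (20:ℝ) ≤ Real.exp 3 := by
    have : Real.exp 3 = (Real.exp 1) ^ 3 := by
      rw [← Real.exp_nat_mul]; norm_num
    rw [this]
    have : (2.718:ℝ) ^ 3 ≤ (Real.exp 1) ^ 3 := by
      apply pow_le_pow_left₀ (by norm_num)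
      linarith
    norm_num at this ⊢
    linarith
  rw [Real.exp_add]
  have h4 : Real.exp (3 * t) = (Real.exp 3) ^ t := by
    rw [← Real.exp_nat_mul, mul_comm]
  rw [h4]
  apply mul_le_mul h5 _ (by positivity) (by positivity)
  exact pow_le_pow_left₀ (by norm_num) h3 t

lemma numeric (n t : ℕ) (hn : 3 ≤ n) (ht : n ≤ 4 * t + 6) (k : ℝ)
    (hk : 36 * (n * Real.sqrt n) ≤ k) :
    (n:ℝ) ^ 2 * (5 ^ t * Real.exp (-(k * (1 + 3 / 2 * t + 3 / 16 * (t * Real.sqrt t))
      / (n:ℝ) ^ 2))) ≤ 1 / 2 := by
  set ν := Real.sqrt n with hν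
  set a := Real.sqrt t with ha
  have hnpos : (0:ℝ) < n := by
    have : 0 < n := by omega
    exact_mod_cast this
  have hν0 : 0 < ν := Real.sqrt_pos.mpr hnpos
  have hν2 : ν ^ 2 = n := Real.sq_sqrt hnpos.le
  have ha0 : 0 ≤ a := Real.sqrt_nonneg _
  have ha2 : a ^ 2 = t := Real.sq_sqrt (by positivity)
  have htr : (n:ℝ) ≤ 4 * t + 6 := by exact_mod_cast ht
  have hνa : ν ≤ 2 * a + 5 / 2 := by
    apply abs_le_of_sq_le_sq' _ (by positivity) |>.2
    rw [hν2]
    nlinarith
  set X := k * (1 + 3 / 2 * t + 3 / 16 * (t * a)) / (n:ℝ) ^ 2 with hX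
  have hXge : 5 + 3 * (t:ℝ) ≤ X := by
    rw [hX, le_div_iff₀ (by positivity)]
    have h1 : ν * (5 + 3 * (t:ℝ)) ≤ 36 * (1 + 3 / 2 * t + 3 / 16 * (t * a)) := by
      have h2 : ν * (5 + 3 * (t:ℝ)) ≤ (2 * a + 5 / 2) * (5 + 3 * (t:ℝ)) :=
        mul_le_mul_of_nonneg_right hνa (by positivity)
      refine le_trans h2 ?_
      rw [← ha2]
      nlinarith [sq_nonneg (a - 1), mul_nonneg ha0 (sq_nonneg a), sq_nonneg a]
    have h3 : (5 + 3 * (t:ℝ)) * (n:ℝ) ^ 2 = (n * ν) * (ν * (5 + 3 * (t:ℝ))) := by
      have : (n * ν) * (ν * (5 + 3 * (t:ℝ))) = n * ν ^ 2 * (5 + 3 * (t:ℝ)) := by ring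
      rw [this, hν2]; ring
    rw [h3]
    calc (n * ν) * (ν * (5 + 3 * (t:ℝ)))
        ≤ (n * ν) * (36 * (1 + 3 / 2 * t + 3 / 16 * (t * a))) :=
          mul_le_mul_of_nonneg_left h1 (by positivity)
      _ = 36 * (n * ν) * (1 + 3 / 2 * t + 3 / 16 * (t * a)) := by ring
      _ ≤ k * (1 + 3 / 2 * t + 3 / 16 * (t * a)) :=
          mul_le_mul_of_nonneg_right hk (by positivity)
  have hexp : 72 * (20:ℝ) ^ t ≤ Real.exp X := le_trans (exp_bound t) (Real.exp_le_exp.mpr hXge)
  have hn2 : (n:ℝ) ^ 2 ≤ 36 * 4 ^ t := by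
    refine le_trans ?_ (sq_le_four_pow t)
    exact pow_le_pow_left₀ hnpos.le htr 2
  rw [Real.exp_neg]
  have hpos : 0 < Real.exp X := Real.exp_pos _
  have h20 : (20:ℝ) ^ t = 4 ^ t * 5 ^ t := by rw [← mul_pow]; norm_num
  calc (n:ℝ) ^ 2 * (5 ^ t * (Real.exp X)⁻¹) = ((n:ℝ) ^ 2 * 5 ^ t) / Real.exp X := by
        rw [div_eq_mul_inv]; ring
    _ ≤ 1 / 2 := by
        rw [div_le_iff₀ hpos]
        have h5 : (n:ℝ) ^ 2 * 5 ^ t ≤ 36 * 4 ^ t * 5 ^ t :=
          mul_le_mul_of_nonneg_right hn2 (by positivity)
        nlinarith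

theorem main_torusZ (hn : 3 ≤ n) (k : ℕ) (hk : 36 * (n * Real.sqrt n) ≤ k)
    (σ : Strategy (torusZ n) k) :
    avg (Finset.univ : Finset (Fin k → ZMod n × ZMod n)) (fun z => surv σ ((n - 3) / 4) z [])
      ≤ 1 / 2 := by
  set t : ℕ := (n - 3) / 4 with ht
  have ht1 : 4 * t + 2 < n := by omega
  have ht2 : n ≤ 4 * t + 6 := by omega
  refine le_trans (avg_surv_le hn σ t) ?_
  refine le_trans ?_ (numeric n t hn ht2 k hk)
  set gt : ℝ := 1 + 3 / 2 * t + 3 / 16 * (t * Real.sqrt t) with hgt
  have hcard : ((Finset.univ : Finset (ZMod n × ZMod n)).card : ℝ) = (n:ℝ) ^ 2 := by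
    rw [Finset.card_univ, Fintype.card_prod, ZMod.card]
    push_cast; ring
  have hnpos : (0:ℝ) < n := by
    have : 0 < n := by omega
    exact_mod_cast this
  calc ∑ s, wsum t (fun w => (avg Finset.univ (fun z => q n w z s)) ^ k)
      ≤ ∑ _s : ZMod n × ZMod n, (5:ℝ) ^ t * Real.exp (-(k * gt / (n:ℝ) ^ 2)) := by
        apply Finset.sum_le_sum
        intro s _
        apply wsum_le
        intro w hw hwE
        have hq := sum_q_le hn w hwE (by rw [hw]; exact_mod_cast ht1) s
        rw [hw, ← hgt] at hq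
        have h0 : 0 ≤ avg Finset.univ (fun z => q n w z s) :=
          avg_nonneg _ _ (fun z _ => q_nonneg _ _ _)
        have h1 : avg Finset.univ (fun z => q n w z s) ≤ Real.exp (-(gt / (n:ℝ) ^ 2)) := by
          have h2 : avg Finset.univ (fun z => q n w z s) ≤ 1 - gt / (n:ℝ) ^ 2 := by
            unfold avg
            rw [hcard, div_le_iff₀ (by positivity), sub_mul,
              div_mul_cancel₀ _ (by positivity), one_mul]
            exact hq
          refine le_trans h2 ?_
          have := Real.add_one_le_exp (-(gt / (n:ℝ) ^ 2))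
          linarith
        calc (avg Finset.univ (fun z => q n w z s)) ^ k
            ≤ (Real.exp (-(gt / (n:ℝ) ^ 2))) ^ k := pow_le_pow_left₀ h0 h1 k
          _ = Real.exp (-(k * gt / (n:ℝ) ^ 2)) := by
              rw [← Real.exp_nat_mul]
              congr 1
              ring
    _ = (n:ℝ) ^ 2 * (5 ^ t * Real.exp (-(k * gt / (n:ℝ) ^ 2))) := by
        rw [Finset.sum_const, nsmul_eq_mul, hcard]

end Union

/-- the first part of the theorem implies the bound for `s_k` -/
lemma sProb_le {V : Type*} [Fintype V] [Nonempty V] (Gr : SimpleGraph V) (k m : ℕ)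
    (h : ∀ σ : Strategy Gr k,
      avg (Finset.univ : Finset (Fin k → V)) (fun z => surv σ m z []) ≤ 1 / 2) :
    sProb Gr k ≤ 1 / 2 := by
  have : Nonempty (Strategy Gr k) :=
    ⟨⟨fun _ _ => Classical.arbitrary V, fun _ _ _ => Or.inl rfl⟩⟩
  unfold sProb
  apply ciSup_le
  intro σ
  have hbdd : BddBelow (Set.range fun m : ℕ =>
      avg (Finset.univ : Finset (Fin k → V)) fun z => surv σ m z []) := by
    refine ⟨0, ?_⟩
    rintro _ ⟨m, rfl⟩
    exact avg_nonneg _ _ (fun z _ => surv_nonneg σ m z [])
  exact le_trans (ciInf_le hbdd m) (h σ)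

/-- **Theorem.** Let `n ≥ 3` and let `T_n = C_n □ C_n` be the toroidal grid. If `k ≥ 36 n^{3/2}`,
then whatever strategy the survivor plays, `k` zombies eat him with probability at least `1/2`,
and even within `⌊(n-3)/4⌋` rounds; hence `s_k(T_n) ≤ 1/2`, and `z(T_n) ≤ 40 n^{3/2}`. -/
theorem result (n : ℕ) (hn : 3 ≤ n) :
    (∀ k : ℕ, 36 * (n * Real.sqrt n) ≤ k →
      (∀ σ : Strategy (SimpleGraph.cycleGraph n □ SimpleGraph.cycleGraph n) k,
        avg (Finset.univ : Finset (Fin k → Fin n × Fin n)) (fun z => surv σ ((n - 3) / 4) z [])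
          ≤ 1 / 2) ∧
      sProb (SimpleGraph.cycleGraph n □ SimpleGraph.cycleGraph n) k ≤ 1 / 2) ∧
    (zombieNumber (SimpleGraph.cycleGraph n □ SimpleGraph.cycleGraph n) : ℝ)
      ≤ 40 * (n * Real.sqrt n) := by
  have hmain0 : ∀ k : ℕ, 36 * (n * Real.sqrt n) ≤ k →
      (∀ σ : Strategy (SimpleGraph.cycleGraph n □ SimpleGraph.cycleGraph n) k,
        avg (Finset.univ : Finset (Fin k → Fin n × Fin n)) (fun z => surv σ ((n - 3) / 4) z [])
          ≤ 1 / 2) := by
    intro k hk
    obtain ⟨m, rfl⟩ : ∃ m, n = m + 1 := ⟨n - 1, by omega⟩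
    rw [SimpleGraph.cycleGraph_eq_circulantGraph]
    intro σ
    exact main_torusZ (n := m + 1) hn k hk σ
  have hne : Nonempty (Fin n × Fin n) := ⟨(⟨0, by omega⟩, ⟨0, by omega⟩)⟩
  have hmain : ∀ k : ℕ, 36 * (n * Real.sqrt n) ≤ k →
      sProb (SimpleGraph.cycleGraph n □ SimpleGraph.cycleGraph n) k ≤ 1 / 2 := by
    intro k hk
    exact sProb_le _ k ((n - 3) / 4) (hmain0 k hk)
  refine ⟨fun k hk => ⟨hmain0 k hk, hmain k hk⟩, ?_⟩
  set x : ℝ := n * Real.sqrt n with hx
  have hx1 : 1 ≤ x := by
    have h1 : (1:ℝ) ≤ n := by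
      have : 1 ≤ n := by omega
      exact_mod_cast this
    have h2 : 1 ≤ Real.sqrt n := by
      rw [Real.one_le_sqrt]; exact h1
    nlinarith
  have hk : 36 * x ≤ (⌈36 * x⌉₊ : ℕ) := Nat.le_ceil _
  have hmem : ⌈36 * x⌉₊ ∈ {k : ℕ | sProb (SimpleGraph.cycleGraph n □ SimpleGraph.cycleGraph n) k
      ≤ 1 / 2} := hmain _ hk
  have hle : zombieNumber (SimpleGraph.cycleGraph n □ SimpleGraph.cycleGraph n) ≤ ⌈36 * x⌉₊ :=
    Nat.sInf_le hmem
  have hceil : ((⌈36 * x⌉₊ : ℕ) : ℝ) < 36 * x + 1 := Nat.ceil_lt_add_one (by linarith)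
  calc (zombieNumber (SimpleGraph.cycleGraph n □ SimpleGraph.cycleGraph n) : ℝ)
      ≤ (⌈36 * x⌉₊ : ℕ) := by exact_mod_cast hle
    _ ≤ 40 * x := by linarith

end Pool.Agent.Results.MP_34e428_co.UpperBound
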